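import Pool.Agent.Work.MP_ef7f46_co_helper63.SAux

/-!
MP_ef7f46_co: block S3 (helper63).
-/

set_option autoImplicit false
set_option linter.unusedSectionVars false
open Classical

namespace EpsNet

open Ctx H63

theorem stmt_S3 : Stmt_S3 := by
  intro P I _ _ X J σ Y h T g u hg huT
  have hkey : ∀ v ∈ X.walkers.erase u,
      (X.β - 1) / 2 * xx X T g u v ≤
        Real.log (X.Z (insert u T) g v) - Real.log (X.Z T g v) := by
    intro v hv
    obtain ⟨hvu, hvw⟩ := Finset.mem_erase.mp hv
    have hZ := Z_pos h T g v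
    have hx0 := xx_nonneg h T g u v
    have hx1 := xx_le h T hg hvw hvu
    have hb : 0 ≤ X.β - 1 := by linarith [h.β_ge]
    have hy0 : 0 ≤ (X.β - 1) * xx X T g u v := mul_nonneg hb hx0
    have hy1 : (X.β - 1) * xx X T g u v ≤ 1 := by
      have h1 := eps_le h
      have h2 := eps_nonneg h
      have h3 : X.β - 1 ≤ 8 * X.β * Y * J := by
        have h4 : 1 ≤ Y * J := one_le_mul_of_one_le_of_one_le h.Y_pos h.J_pos
        have h5 := h.β_ge
        nlinarith
      calc (X.β - 1) * xx X T g u v ≤ (8 * X.β * Y * J) * (16 * X.β ^ X.k / X.r) :=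
            mul_le_mul h3 hx1 hx0 (by linarith)
        _ ≤ 1 := by linarith
    rw [Z_insert h T g huT hvu, Real.log_mul hZ.ne' (by positivity)]
    have h6 := Real.one_sub_inv_le_log_of_pos
      (show (0:ℝ) < 1 + (X.β - 1) * xx X T g u v by positivity)
    have h7 : (X.β - 1) / 2 * xx X T g u v ≤ 1 - (1 + (X.β - 1) * xx X T g u v)⁻¹ := by
      have h8 : (0:ℝ) < 1 + (X.β - 1) * xx X T g u v := by positivity
      have h9 : 1 - (1 + (X.β - 1) * xx X T g u v)⁻¹
          = (X.β - 1) * xx X T g u v / (1 + (X.β - 1) * xx X T g u v) := by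
        field_simp
        ring
      rw [h9, le_div_iff₀ h8]
      nlinarith
    linarith
  have h1 : ∑ v ∈ X.walkers, (Real.log (X.Z (insert u T) g v) - Real.log (X.Z T g v))
      = ∑ v ∈ X.walkers.erase u, (Real.log (X.Z (insert u T) g v) - Real.log (X.Z T g v)) := by
    symm
    apply Finset.sum_subset (Finset.erase_subset _ _)
    intro v hv hv'
    have : v = u := by
      by_contra hne
      exact hv' (Finset.mem_erase.mpr ⟨hne, hv⟩)
    subst this
    rw [Z_insert_self T g huT]
    ring
  have h2 : X.L (insert u T) g - X.L T g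
      = ∑ v ∈ X.walkers, (Real.log (X.Z (insert u T) g v) - Real.log (X.Z T g v)) := by
    unfold Ctx.L
    rw [Finset.sum_sub_distrib]
    ring
  have h3 : (X.β - 1) / 2 * X.uload T g u ≤
      ∑ v ∈ X.walkers.erase u, (Real.log (X.Z (insert u T) g v) - Real.log (X.Z T g v)) := by
    rw [uload_eq, Finset.mul_sum]
    exact Finset.sum_le_sum hkey
  linarith

end EpsNet
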