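import Pool.Agent.Work.MP_ef7f46_co_helper63.SAux

/-!
MP_ef7f46_co: block S4 (helper63).
-/

set_option autoImplicit false
set_option linter.unusedSectionVars false
open Classical

namespace EpsNet

open Ctx H63

namespace H63

variable {P I : Type} [Fintype P] [Fintype I] {X : Ctx P I} {J σ Y : ℝ}

lemma prob_diff (h : X.Hyp J σ Y) (T : Finset I) (g : I → ℝ) {u v : I} (huT : u ∉ T)
    (huv : v ≠ u) (s : P) :
    |X.prob (insert u T) g v s - X.prob T g v s| ≤
      (X.β - 1) * ((if u ∈ X.inc s ∧ ((X.inc s ∩ T).erase v).card < X.k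
        then X.prob T g v s else 0) + xx X T g u v * X.prob T g v s) := by
  have hZ := Z_pos h T g v
  have hx0 := xx_nonneg h T g u v
  have hp0 := prob_nonneg h T g v s
  have hb : 0 ≤ X.β - 1 := by linarith [h.β_ge]
  have hD : 1 ≤ 1 + (X.β - 1) * xx X T g u v := by
    have := mul_nonneg hb hx0
    linarith
  have hDpos : 0 < 1 + (X.β - 1) * xx X T g u v := by linarith
  by_cases hh : u ∈ X.inc s ∧ ((X.inc s ∩ T).erase v).card < X.k
  · rw [if_pos hh]
    have e1 : X.prob (insert u T) g v s - X.prob T g v s =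
        (X.β - 1) * X.prob T g v s * (1 - xx X T g u v) / (1 + (X.β - 1) * xx X T g u v) := by
      unfold Ctx.prob
      rw [wt_insert_hit T g huT huv hh, Z_insert h T g huT huv]
      field_simp
      ring
    rw [e1, abs_div, abs_of_pos hDpos]
    apply (div_le_self (abs_nonneg _) hD).trans
    rw [abs_mul, abs_of_nonneg (mul_nonneg hb hp0)]
    have e2 : |1 - xx X T g u v| ≤ 1 + xx X T g u v := by
      rw [abs_le]; constructor <;> linarith
    calc _ ≤ (X.β - 1) * X.prob T g v s * (1 + xx X T g u v) :=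
          mul_le_mul_of_nonneg_left e2 (mul_nonneg hb hp0)
      _ = _ := by ring
  · rw [if_neg hh]
    have e1 : X.prob (insert u T) g v s - X.prob T g v s =
        -((X.β - 1) * X.prob T g v s * (xx X T g u v) / (1 + (X.β - 1) * xx X T g u v)) := by
      unfold Ctx.prob
      rw [wt_insert_not T g huT (Or.inr hh), Z_insert h T g huT huv]
      field_simp
      ring
    rw [e1, abs_neg, abs_div, abs_of_pos hDpos]
    apply (div_le_self (abs_nonneg _) hD).trans
    rw [abs_of_nonneg (mul_nonneg (mul_nonneg hb hp0) hx0)]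
    apply le_of_eq
    ring

lemma prob_insert_self (T : Finset I) (g : I → ℝ) {u : I} (huT : u ∉ T) (s : P) :
    X.prob (insert u T) g u s = X.prob T g u s := by
  unfold Ctx.prob
  rw [Z_insert_self T g huT, wt_insert_not T g huT (Or.inl rfl)]

noncomputable def aa (X : Ctx P I) (T : Finset I) (g : I → ℝ) (u i : I) : ℝ :=
  ∑ v ∈ (X.walkers.erase u).erase i,
    ∑ s ∈ (X.seen v).filter (fun s => u ∈ X.inc s ∧ ((X.inc s ∩ T).erase v).card < X.k),
      if i ∈ X.inc s then X.prob T g v s else 0

noncomputable def cc (X : Ctx P I) (T : Finset I) (g : I → ℝ) (u i : I) : ℝ :=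
  ∑ v ∈ (X.walkers.erase u).erase i, xx X T g u v *
    ∑ s ∈ X.seen v, if i ∈ X.inc s then X.prob T g v s else 0

lemma load_diff (h : X.Hyp J σ Y) (T : Finset I) (g : I → ℝ) {u : I} (huT : u ∉ T) (i : I) :
    |X.load (insert u T) g i - X.load T g i| ≤ (X.β - 1) * (aa X T g u i + cc X T g u i) := by
  have e1 : X.load (insert u T) g i - X.load T g i =
      ∑ v ∈ (X.walkers.erase u).erase i, ∑ s ∈ (X.seen v).filter (fun s => i ∈ X.inc s),
        (X.prob (insert u T) g v s - X.prob T g v s) := by
    unfold Ctx.load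
    rw [← Finset.sum_sub_distrib]
    have e0 : (X.walkers.erase u).erase i = (X.walkers.erase i).erase u := Finset.erase_right_comm
    rw [e0]
    symm
    have e2 : ∀ v ∈ X.walkers.erase i,
        (∑ s ∈ (X.seen v).filter (fun s => i ∈ X.inc s), X.prob (insert u T) g v s -
        ∑ s ∈ (X.seen v).filter (fun s => i ∈ X.inc s), X.prob T g v s) =
        ∑ s ∈ (X.seen v).filter (fun s => i ∈ X.inc s),
          (X.prob (insert u T) g v s - X.prob T g v s) := by
      intro v _
      rw [Finset.sum_sub_distrib]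
    rw [Finset.sum_congr rfl e2]
    apply Finset.sum_subset (Finset.erase_subset _ _)
    intro v hv hv'
    have : v = u := by
      by_contra hne
      exact hv' (Finset.mem_erase.mpr ⟨hne, hv⟩)
    subst this
    apply Finset.sum_eq_zero
    intro s _
    rw [prob_insert_self T g huT]
    ring
  rw [e1]
  calc _ ≤ ∑ v ∈ (X.walkers.erase u).erase i, ∑ s ∈ (X.seen v).filter (fun s => i ∈ X.inc s),
        |X.prob (insert u T) g v s - X.prob T g v s| := by
        apply (Finset.abs_sum_le_sum_abs _ _).trans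
        apply Finset.sum_le_sum
        intro v _
        exact Finset.abs_sum_le_sum_abs _ _
    _ ≤ ∑ v ∈ (X.walkers.erase u).erase i, (X.β - 1) * (
          (∑ s ∈ (X.seen v).filter (fun s => u ∈ X.inc s ∧ ((X.inc s ∩ T).erase v).card < X.k),
            if i ∈ X.inc s then X.prob T g v s else 0) + xx X T g u v *
          ∑ s ∈ X.seen v, if i ∈ X.inc s then X.prob T g v s else 0) := by
        apply Finset.sum_le_sum
        intro v hv
        have hvu : v ≠ u := (Finset.mem_erase.mp (Finset.mem_erase.mp hv).2).1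
        rw [Finset.sum_filter, Finset.sum_filter, Finset.mul_sum, ← Finset.sum_add_distrib,
          Finset.mul_sum]
        apply Finset.sum_le_sum
        intro s _
        by_cases hi : i ∈ X.inc s
        · rw [if_pos hi, if_pos hi]
          exact prob_diff h T g huT hvu s
        · rw [if_neg hi, if_neg hi]
          simp
    _ = _ := by
        unfold aa cc
        rw [← Finset.mul_sum, Finset.sum_add_distrib]

lemma aa_nonneg (h : X.Hyp J σ Y) (T : Finset I) (g : I → ℝ) (u i : I) : 0 ≤ aa X T g u i := by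
  unfold aa
  apply Finset.sum_nonneg
  intro v _
  apply Finset.sum_nonneg
  intro s _
  split_ifs
  · exact prob_nonneg h T g v s
  · exact le_rfl

lemma ss_nonneg (h : X.Hyp J σ Y) (T : Finset I) (g : I → ℝ) (v i : I) :
    0 ≤ ∑ s ∈ X.seen v, (if i ∈ X.inc s then X.prob T g v s else 0) := by
  apply Finset.sum_nonneg
  intro s _
  split_ifs
  · exact prob_nonneg h T g v s
  · exact le_rfl

lemma cc_nonneg (h : X.Hyp J σ Y) (T : Finset I) (g : I → ℝ) (u i : I) : 0 ≤ cc X T g u i := by
  unfold cc
  apply Finset.sum_nonneg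
  intro v _
  exact mul_nonneg (xx_nonneg h T g u v) (ss_nonneg h T g v i)

lemma aa_le (h : X.Hyp J σ Y) (T : Finset I) {g : I → ℝ} (hg : ∀ i, 0 ≤ g i) {u i : I}
    (huV : u ∈ X.V) (hiu : i ≠ u) :
    aa X T g u i ≤ X.t * (16 * X.β ^ X.k / X.r) := by
  have he := eps_nonneg h
  -- bound by a sum over all points
  have e1 : aa X T g u i ≤ ∑ v ∈ X.V, ∑ s : P,
      (if v ∈ X.inc s ∧ u ∈ X.inc s ∧ i ∈ X.inc s then 16 * X.β ^ X.k / X.r else 0) := by
    unfold aa
    have hsub : (X.walkers.erase u).erase i ⊆ X.V := by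
      intro v hv
      exact walker_V (Finset.mem_of_mem_erase (Finset.mem_of_mem_erase hv))
    refine le_trans ?_ (Finset.sum_le_sum_of_subset_of_nonneg hsub ?_)
    · apply Finset.sum_le_sum
      intro v hv
      have hvw : v ∈ X.walkers := Finset.mem_of_mem_erase (Finset.mem_of_mem_erase hv)
      refine le_trans ?_ (Finset.sum_le_sum_of_subset_of_nonneg
        (Finset.subset_univ ((X.seen v).filter
          (fun s => u ∈ X.inc s ∧ ((X.inc s ∩ T).erase v).card < X.k))) ?_)
      · apply Finset.sum_le_sum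
        intro s hs
        obtain ⟨hs1, hs2, hs3⟩ := Finset.mem_filter.mp hs
        have hs4 : v ∈ X.inc s := (Finset.mem_filter.mp hs1).2
        by_cases hi : i ∈ X.inc s
        · rw [if_pos hi, if_pos ⟨hs4, hs2, hi⟩]
          exact prob_le h T hg hvw s
        · rw [if_neg hi]
          split_ifs <;> simp [he]
      · intro s _ _
        split_ifs <;> simp [he]
    · intro v _ _
      apply Finset.sum_nonneg
      intro s _
      split_ifs <;> simp [he]
  refine e1.trans ?_
  rw [Finset.sum_comm]
  have e2 : ∀ s : P, (∑ v ∈ X.V,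
      (if v ∈ X.inc s ∧ u ∈ X.inc s ∧ i ∈ X.inc s then 16 * X.β ^ X.k / X.r else 0)) =
      if u ∈ X.inc s ∧ i ∈ X.inc s then X.t * (16 * X.β ^ X.k / X.r) else 0 := by
    intro s
    by_cases hh : u ∈ X.inc s ∧ i ∈ X.inc s
    · rw [if_pos hh]
      have e3 : ∀ v ∈ X.V, (if v ∈ X.inc s ∧ u ∈ X.inc s ∧ i ∈ X.inc s
          then 16 * X.β ^ X.k / X.r else 0) =
          if v ∈ X.inc s then 16 * X.β ^ X.k / X.r else 0 := by
        intro v _
        by_cases hv : v ∈ X.inc s
        · rw [if_pos ⟨hv, hh⟩, if_pos hv]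
        · rw [if_neg hv, if_neg (fun hc => hv hc.1)]
      rw [Finset.sum_congr rfl e3, ← Finset.sum_filter, Finset.sum_const, nsmul_eq_mul]
      congr 2
      rw [← h.main_card s]
      congr 1
      ext v
      simp only [Finset.mem_filter, Finset.mem_inter]
      tauto
    · rw [if_neg hh]
      apply Finset.sum_eq_zero
      intro v _
      rw [if_neg (fun hc => hh hc.2)]
  rw [Finset.sum_congr rfl (fun s _ => e2 s), ← Finset.sum_filter, Finset.sum_const, nsmul_eq_mul]
  have e4 : (Finset.univ.filter (fun s : P => u ∈ X.inc s ∧ i ∈ X.inc s)).card ≤ 1 := by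
    rw [Finset.card_le_one]
    intro s hs s' hs'
    obtain ⟨_, h1, h2⟩ := Finset.mem_filter.mp hs
    obtain ⟨_, h3, h4⟩ := Finset.mem_filter.mp hs'
    exact h.lin u i (fun hc => hiu hc.symm) huV s s' h1 h2 h3 h4
  have e5 : ((Finset.univ.filter (fun s : P => u ∈ X.inc s ∧ i ∈ X.inc s)).card : ℝ) ≤ 1 := by
    exact_mod_cast e4
  have e6 : 0 ≤ (X.t : ℝ) * (16 * X.β ^ X.k / X.r) := mul_nonneg (Nat.cast_nonneg _) he
  calc _ ≤ 1 * ((X.t : ℝ) * (16 * X.β ^ X.k / X.r)) := mul_le_mul_of_nonneg_right e5 e6
    _ = _ := one_mul _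

lemma cc_le (h : X.Hyp J σ Y) (T : Finset I) {g : I → ℝ} (hg : ∀ i, 0 ≤ g i) (u i : I) :
    cc X T g u i ≤ 16 * X.β ^ X.k / X.r * X.uload T g u := by
  have he := eps_nonneg h
  unfold cc
  calc _ ≤ ∑ v ∈ (X.walkers.erase u).erase i, xx X T g u v * (16 * X.β ^ X.k / X.r) := by
        apply Finset.sum_le_sum
        intro v hv
        have hvi : v ≠ i := (Finset.mem_erase.mp hv).1
        have hvw : v ∈ X.walkers := Finset.mem_of_mem_erase (Finset.mem_of_mem_erase hv)
        apply mul_le_mul_of_nonneg_left _ (xx_nonneg h T g u v)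
        rw [← Finset.sum_filter]
        apply sum_common_le h T hg hvw hvi _ (Finset.filter_subset _ _)
        intro s hs
        exact (Finset.mem_filter.mp hs).2
    _ ≤ ∑ v ∈ X.walkers.erase u, xx X T g u v * (16 * X.β ^ X.k / X.r) := by
        apply Finset.sum_le_sum_of_subset_of_nonneg (Finset.erase_subset _ _)
        intro v _ _
        exact mul_nonneg (xx_nonneg h T g u v) he
    _ = _ := by
        rw [uload_eq, ← Finset.sum_mul]
        ring

lemma sum_aa_le (h : X.Hyp J σ Y) (T : Finset I) (g : I → ℝ) (u : I) :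
    ∑ i ∈ Finset.univ.erase u, aa X T g u i ≤ J * X.uload T g u := by
  have e1 : ∀ i, aa X T g u i ≤ ∑ v ∈ X.walkers.erase u,
    ∑ s ∈ (X.seen v).filter (fun s => u ∈ X.inc s ∧ ((X.inc s ∩ T).erase v).card < X.k),
      if i ∈ X.inc s then X.prob T g v s else 0 := by
    intro i
    unfold aa
    apply Finset.sum_le_sum_of_subset_of_nonneg (Finset.erase_subset _ _)
    intro v _ _
    apply Finset.sum_nonneg
    intro s _
    split_ifs
    · exact prob_nonneg h T g v s
    · exact le_rfl
  calc _ ≤ ∑ i : I, aa X T g u i := by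
        apply Finset.sum_le_sum_of_subset_of_nonneg (Finset.subset_univ _)
        intro i _ _
        exact aa_nonneg h T g u i
    _ ≤ ∑ i : I, ∑ v ∈ X.walkers.erase u,
        ∑ s ∈ (X.seen v).filter (fun s => u ∈ X.inc s ∧ ((X.inc s ∩ T).erase v).card < X.k),
        (if i ∈ X.inc s then X.prob T g v s else 0) := Finset.sum_le_sum (fun i _ => e1 i)
    _ = ∑ v ∈ X.walkers.erase u,
        ∑ s ∈ (X.seen v).filter (fun s => u ∈ X.inc s ∧ ((X.inc s ∩ T).erase v).card < X.k),
        ((X.inc s).card : ℝ) * X.prob T g v s := by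
        rw [Finset.sum_comm]
        apply Finset.sum_congr rfl
        intro v _
        rw [Finset.sum_comm]
        apply Finset.sum_congr rfl
        intro s _
        rw [← Finset.sum_filter, Finset.sum_const, nsmul_eq_mul]
        congr 2
        congr 1
        ext i
        simp
    _ ≤ ∑ v ∈ X.walkers.erase u,
        ∑ s ∈ (X.seen v).filter (fun s => u ∈ X.inc s ∧ ((X.inc s ∩ T).erase v).card < X.k),
        J * X.prob T g v s := by
        apply Finset.sum_le_sum
        intro v _
        apply Finset.sum_le_sum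
        intro s _
        exact mul_le_mul_of_nonneg_right (h.inc_le s) (prob_nonneg h T g v s)
    _ = _ := by
        rw [uload_eq, Finset.mul_sum]
        apply Finset.sum_congr rfl
        intro v _
        unfold xx
        rw [Finset.mul_sum]

lemma sum_cc_le (h : X.Hyp J σ Y) (T : Finset I) (g : I → ℝ) (u : I) :
    ∑ i ∈ Finset.univ.erase u, cc X T g u i ≤ J * X.uload T g u := by
  have e1 : ∀ i, cc X T g u i ≤ ∑ v ∈ X.walkers.erase u, xx X T g u v *
    ∑ s ∈ X.seen v, (if i ∈ X.inc s then X.prob T g v s else 0) := by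
    intro i
    unfold cc
    apply Finset.sum_le_sum_of_subset_of_nonneg (Finset.erase_subset _ _)
    intro v _ _
    exact mul_nonneg (xx_nonneg h T g u v) (ss_nonneg h T g v i)
  calc _ ≤ ∑ i : I, cc X T g u i := by
        apply Finset.sum_le_sum_of_subset_of_nonneg (Finset.subset_univ _)
        intro i _ _
        exact cc_nonneg h T g u i
    _ ≤ ∑ i : I, ∑ v ∈ X.walkers.erase u, xx X T g u v *
        ∑ s ∈ X.seen v, (if i ∈ X.inc s then X.prob T g v s else 0) :=
        Finset.sum_le_sum (fun i _ => e1 i)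
    _ = ∑ v ∈ X.walkers.erase u, xx X T g u v *
        ∑ s ∈ X.seen v, ((X.inc s).card : ℝ) * X.prob T g v s := by
        rw [Finset.sum_comm]
        apply Finset.sum_congr rfl
        intro v _
        rw [← Finset.mul_sum, Finset.sum_comm]
        congr 1
        apply Finset.sum_congr rfl
        intro s _
        rw [← Finset.sum_filter, Finset.sum_const, nsmul_eq_mul]
        congr 2
        congr 1
        ext i
        simp
    _ ≤ ∑ v ∈ X.walkers.erase u, xx X T g u v * J := by
        apply Finset.sum_le_sum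
        intro v _
        apply mul_le_mul_of_nonneg_left _ (xx_nonneg h T g u v)
        have hJ : 0 ≤ J := by linarith [h.J_pos]
        calc _ ≤ ∑ s ∈ X.seen v, J * X.prob T g v s := by
              apply Finset.sum_le_sum
              intro s _
              exact mul_le_mul_of_nonneg_right (h.inc_le s) (prob_nonneg h T g v s)
          _ = J * ∑ s ∈ X.seen v, X.prob T g v s := by rw [Finset.mul_sum]
          _ ≤ J * 1 := mul_le_mul_of_nonneg_left (sum_prob_le_one h T g v) hJ
          _ = J := mul_one J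
    _ = _ := by
        rw [uload_eq, ← Finset.sum_mul]
        ring

end H63

theorem stmt_S4 : Stmt_S4 := by
  intro P I _ _ X J σ Y h T g u hg huT huV
  have he := eps_nonneg h
  have hX := uload_nonneg h T g u
  have hb : 0 ≤ X.β - 1 := by linarith [h.β_ge]
  have key : ∀ i ∈ Finset.univ.erase u,
      (X.load (insert u T) g i - X.load T g i) ^ 2 ≤
        (X.β - 1) ^ 2 * (2 * (X.t * (16 * X.β ^ X.k / X.r)) * aa X T g u i +
          2 * (16 * X.β ^ X.k / X.r * X.uload T g u) * cc X T g u i) := by
    intro i hi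
    have hiu : i ≠ u := (Finset.mem_erase.mp hi).1
    have h1 := load_diff h T g huT i
    have h2 := aa_le h T hg huV hiu
    have h3 := cc_le h T hg u i
    have h4 := aa_nonneg h T g u i
    have h5 := cc_nonneg h T g u i
    calc _ = |X.load (insert u T) g i - X.load T g i| ^ 2 := (sq_abs _).symm
      _ ≤ ((X.β - 1) * (aa X T g u i + cc X T g u i)) ^ 2 :=
          pow_le_pow_left₀ (abs_nonneg _) h1 2
      _ = (X.β - 1) ^ 2 * (aa X T g u i + cc X T g u i) ^ 2 := by ring
      _ ≤ _ := by
          apply mul_le_mul_of_nonneg_left _ (sq_nonneg _)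
          nlinarith [sq_nonneg (aa X T g u i - cc X T g u i),
            mul_le_mul_of_nonneg_right h2 h4, mul_le_mul_of_nonneg_right h3 h5]
  refine (Finset.sum_le_sum key).trans ?_
  rw [← Finset.mul_sum, Finset.sum_add_distrib, ← Finset.mul_sum, ← Finset.mul_sum]
  have h1 := sum_aa_le h T g u
  have h2 := sum_cc_le h T g u
  have ht : (0:ℝ) ≤ X.t := Nat.cast_nonneg _
  calc _ ≤ (X.β - 1) ^ 2 * (2 * (X.t * (16 * X.β ^ X.k / X.r)) * (J * X.uload T g u) +
          2 * (16 * X.β ^ X.k / X.r * X.uload T g u) * (J * X.uload T g u)) := by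
        apply mul_le_mul_of_nonneg_left _ (sq_nonneg _)
        apply add_le_add
        · exact mul_le_mul_of_nonneg_left h1 (by positivity)
        · exact mul_le_mul_of_nonneg_left h2 (by positivity)
    _ = _ := by ring

end EpsNet
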