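import Pool.Agent.Work.MP_ef7f46_co_helper63.S3
import Pool.Agent.Work.MP_ef7f46_co_helper63.S4

/-!
MP_ef7f46_co: block S5 (helper63).
-/

set_option autoImplicit false
set_option linter.unusedSectionVars false
open Classical

namespace EpsNet

open Ctx H63

lemma H63.uload_le_load {P I : Type} [Fintype P] [Fintype I] {X : Ctx P I} {J σ Y : ℝ}
    (h : X.Hyp J σ Y) (T : Finset I) (g : I → ℝ) (u : I) :
    X.uload T g u ≤ X.load T g u := by
  unfold Ctx.uload Ctx.load
  apply Finset.sum_le_sum
  intro v _
  apply Finset.sum_le_sum_of_subset_of_nonneg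
  · intro s hs
    obtain ⟨h1, h2, _⟩ := Finset.mem_filter.mp hs
    exact Finset.mem_filter.mpr ⟨h1, h2⟩
  · intro s _ _
    exact prob_nonneg h T g v s

theorem stmt_S5 (hS2 : Stmt_S2) : Stmt_S5 := by
  intro P I _ _ X J σ Y h T g g' u hg hst huV huT hg'
  have hg0 : ∀ i, 0 ≤ g i := fun i => (hg i).1
  have h3 := stmt_S3 P I X J σ Y h T g u hg0 huT
  have h4 := stmt_S4 P I X J σ Y h T g u hg0 huT huV
  have h2 := hS2 P I X J σ Y h (insert u T) g g'
  have hK : 0 < X.K := by
    have h5 := h.K_ge
    have h6 := h.t_ge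
    have h7 := h.k_pos
    have h8 : (4:ℝ) ≤ X.t := by
      have : 4 ≤ X.t := by omega
      exact_mod_cast this
    linarith
  have hX0 := uload_nonneg h T g u
  have hX1 : X.uload T g u ≤ X.K * Y := by
    calc _ ≤ X.load T g u := uload_le_load h T g u
      _ = X.K * g u := (hst u huT).symm
      _ ≤ _ := mul_le_mul_of_nonneg_left (hg u).2 hK.le
  -- the second order term
  have hterm : ∀ i : I,
      (if i = u then 0 else -(1 / (2 * X.K) * (X.load (insert u T) g i - X.load T g i) ^ 2)) ≤
      -(X.load (insert u T) g i * (g' i - g i)) + X.K / 2 * (g' i ^ 2 - g i ^ 2) := by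
    intro i
    by_cases hi : i ∈ insert u T
    · rw [hg' i hi]
      have h5 : 0 ≤ 1 / (2 * X.K) * (X.load (insert u T) g i - X.load T g i) ^ 2 := by positivity
      split_ifs <;> linarith
    · have hiu : i ≠ u := fun hc => hi (hc ▸ Finset.mem_insert_self u T)
      have hiT : i ∉ T := fun hc => hi (Finset.mem_insert_of_mem hc)
      rw [if_neg hiu]
      have h5 : X.K * g i = X.load T g i := hst i hiT
      have h6 : -(X.load (insert u T) g i * (g' i - g i)) + X.K / 2 * (g' i ^ 2 - g i ^ 2)
          - -(1 / (2 * X.K) * (X.load (insert u T) g i - X.load T g i) ^ 2)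
          = 1 / (2 * X.K) * (X.K * (g' i - g i) -
            (X.load (insert u T) g i - X.load T g i)) ^ 2 := by
        rw [← h5]
        field_simp
        ring
      have h7 : 0 ≤ 1 / (2 * X.K) * (X.K * (g' i - g i) -
            (X.load (insert u T) g i - X.load T g i)) ^ 2 := by positivity
      linarith
  have hsum := Finset.sum_le_sum (fun i (_ : i ∈ (Finset.univ : Finset I)) => hterm i)
  have e1 : ∑ i : I, (-(X.load (insert u T) g i * (g' i - g i)) +
      X.K / 2 * (g' i ^ 2 - g i ^ 2)) =
      - ∑ i, X.load (insert u T) g i * (g' i - g i) + X.K / 2 * ∑ i, (g' i ^ 2 - g i ^ 2) := by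
    rw [Finset.sum_add_distrib, Finset.sum_neg_distrib, Finset.mul_sum]
  have e2 : ∑ i : I, (if i = u then 0 else
      -(1 / (2 * X.K) * (X.load (insert u T) g i - X.load T g i) ^ 2)) =
      -(1 / (2 * X.K) * ∑ i ∈ Finset.univ.erase u,
        (X.load (insert u T) g i - X.load T g i) ^ 2) := by
    rw [← Finset.add_sum_erase Finset.univ _ (Finset.mem_univ u), if_pos rfl, zero_add,
      Finset.mul_sum, ← Finset.sum_neg_distrib]
    apply Finset.sum_congr rfl
    intro i hi
    rw [if_neg (Finset.mem_erase.mp hi).1]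
  rw [e1, e2] at hsum
  -- constants
  have hb : 0 ≤ X.β - 1 := by linarith [h.β_ge]
  have he := eps_nonneg h
  have hY := h.Y_pos
  have hJ := h.J_pos
  have hfin : 1 / (2 * X.K) * ∑ i ∈ Finset.univ.erase u,
      (X.load (insert u T) g i - X.load T g i) ^ 2 ≤ (X.β - 1) / 4 * X.uload T g u := by
    have h5 : (X.t : ℝ) + X.uload T g u ≤ 2 * X.K * Y := by
      have := h.K_ge
      nlinarith
    have h6 : 16 * X.β ^ X.k / X.r * (8 * X.β * Y * J) ≤ 1 := eps_le h
    calc _ ≤ 1 / (2 * X.K) * (2 * (X.β - 1) ^ 2 * (16 * X.β ^ X.k / X.r) *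
          (X.t + X.uload T g u) * J * X.uload T g u) :=
          mul_le_mul_of_nonneg_left h4 (by positivity)
      _ = (1 / (2 * X.K) * (2 * (X.β - 1) ^ 2 * (16 * X.β ^ X.k / X.r) * J * X.uload T g u)) *
          (X.t + X.uload T g u) := by ring
      _ ≤ (1 / (2 * X.K) * (2 * (X.β - 1) ^ 2 * (16 * X.β ^ X.k / X.r) * J * X.uload T g u)) *
          (2 * X.K * Y) := by
          apply mul_le_mul_of_nonneg_left h5
          have : 0 ≤ J := by linarith
          positivity
      _ = (X.β - 1) * X.uload T g u * (2 * ((X.β - 1) * (16 * X.β ^ X.k / X.r) * Y * J)) := by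
          field_simp
      _ ≤ (X.β - 1) * X.uload T g u * (1 / 4) := by
          apply mul_le_mul_of_nonneg_left _ (mul_nonneg hb hX0)
          have h7 : (X.β - 1) * (16 * X.β ^ X.k / X.r) * Y * J ≤
              X.β * (16 * X.β ^ X.k / X.r) * Y * J := by
            have : 0 ≤ Y := by linarith
            have : 0 ≤ J := by linarith
            gcongr
            linarith
          linarith
      _ = _ := by ring
  linarith

end EpsNet
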