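import Pool.Agent.Work.MP_ef7f46_co.Interface

/-!
MP_ef7f46_co: auxiliary facts for the blocks S3, S4, S5 (helper63).
-/

set_option autoImplicit false
set_option linter.unusedSectionVars false
open Classical

namespace EpsNet

namespace H63

open Ctx

variable {P I : Type} [Fintype P] [Fintype I] {X : Ctx P I} {J σ Y : ℝ}

lemma beta_pos (h : X.Hyp J σ Y) : 0 < X.β := by linarith [h.β_ge]

lemma r_posR (h : X.Hyp J σ Y) : (0:ℝ) < X.r := by
  have := h.r_pos
  exact_mod_cast this

lemma walker_V {v : I} (hv : v ∈ X.walkers) : v ∈ X.V := (Finset.mem_filter.mp hv).1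

lemma walker_card (h : X.Hyp J σ Y) {v : I} (hv : v ∈ X.walkers) :
    0 < (X.seen v).card := by
  have h1 := (Finset.mem_filter.mp hv).2
  have h2 := h.r_pos
  omega

lemma walker_cardR (h : X.Hyp J σ Y) {v : I} (hv : v ∈ X.walkers) :
    (0:ℝ) < (X.seen v).card := by
  exact_mod_cast walker_card h hv

lemma wt_nonneg (h : X.Hyp J σ Y) (T : Finset I) (g : I → ℝ) (v : I) (s : P) :
    0 ≤ X.wt T g v s := by
  unfold Ctx.wt
  have := beta_pos h
  positivity

lemma Z_ge (h : X.Hyp J σ Y) (T : Finset I) (g : I → ℝ) (v : I) : 1 ≤ X.Z T g v := by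
  unfold Ctx.Z
  have : 0 ≤ ∑ s ∈ X.seen v, X.wt T g v s := Finset.sum_nonneg (fun s _ => wt_nonneg h T g v s)
  linarith

lemma Z_pos (h : X.Hyp J σ Y) (T : Finset I) (g : I → ℝ) (v : I) : 0 < X.Z T g v := by
  linarith [Z_ge h T g v]

lemma prob_nonneg (h : X.Hyp J σ Y) (T : Finset I) (g : I → ℝ) (v : I) (s : P) :
    0 ≤ X.prob T g v s := div_nonneg (wt_nonneg h T g v s) (Z_pos h T g v).le

lemma prob_le_wt (h : X.Hyp J σ Y) (T : Finset I) (g : I → ℝ) (v : I) (s : P) :
    X.prob T g v s ≤ X.wt T g v s :=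
  div_le_self (wt_nonneg h T g v s) (Z_ge h T g v)

lemma sum_prob_le_one (h : X.Hyp J σ Y) (T : Finset I) (g : I → ℝ) (v : I) :
    ∑ s ∈ X.seen v, X.prob T g v s ≤ 1 := by
  unfold Ctx.prob
  rw [← Finset.sum_div, div_le_one (Z_pos h T g v)]
  unfold Ctx.Z
  linarith

lemma pen_nonneg {g : I → ℝ} (hg : ∀ i, 0 ≤ g i) (v : I) (s : P) : 0 ≤ X.pen g v s :=
  Finset.sum_nonneg (fun i _ => hg i)

/-- `ε₀ = 16 β^k / r` -/
lemma wt_le (h : X.Hyp J σ Y) (T : Finset I) {g : I → ℝ} (hg : ∀ i, 0 ≤ g i) {v : I}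
    (hv : v ∈ X.walkers) (s : P) : X.wt T g v s ≤ 16 * X.β ^ X.k / X.r := by
  have hr := r_posR h
  have hc := walker_cardR h hv
  have hb := beta_pos h
  have h1 : (X.r : ℝ) ≤ 16 * (X.seen v).card := by
    exact_mod_cast (Finset.mem_filter.mp hv).2
  have h2 : Real.exp (-(X.pen g v s)) ≤ 1 := by
    rw [Real.exp_le_one_iff]
    linarith [pen_nonneg (X := X) hg v s]
  have h3 : X.β ^ X.tau T v s ≤ X.β ^ X.k := by
    apply pow_le_pow_right₀ (by linarith [h.β_ge])
    exact min_le_right _ _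
  unfold Ctx.wt
  rw [div_le_div_iff₀ hc hr]
  have h4 : X.β ^ X.tau T v s * Real.exp (-(X.pen g v s)) ≤ X.β ^ X.k := by
    calc _ ≤ X.β ^ X.k * 1 := by
          apply mul_le_mul h3 h2 (Real.exp_pos _).le (by positivity)
      _ = _ := by ring
  have h5 : 0 ≤ X.β ^ X.tau T v s * Real.exp (-(X.pen g v s)) := by positivity
  nlinarith [mul_le_mul h4 h1 hr.le (by positivity : (0:ℝ) ≤ X.β ^ X.k)]

lemma prob_le (h : X.Hyp J σ Y) (T : Finset I) {g : I → ℝ} (hg : ∀ i, 0 ≤ g i) {v : I}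
    (hv : v ∈ X.walkers) (s : P) : X.prob T g v s ≤ 16 * X.β ^ X.k / X.r :=
  (prob_le_wt h T g v s).trans (wt_le h T hg hv s)

lemma eps_nonneg (h : X.Hyp J σ Y) : 0 ≤ 16 * X.β ^ X.k / X.r := by
  have := beta_pos h
  have := r_posR h
  positivity

/-- `128 β Y J ε₀ ≤ 16` -/
lemma eps_le (h : X.Hyp J σ Y) : 16 * X.β ^ X.k / X.r * (8 * X.β * Y * J) ≤ 1 := by
  have hr := r_posR h
  have := h.r_ge
  rw [div_mul_eq_mul_div, div_le_one hr]
  calc _ = 128 * X.β ^ (X.k + 1) * Y * J := by ring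
    _ ≤ _ := this

/-- the unsaturated indicator for `u` -/
def hit (X : Ctx P I) (T : Finset I) (u v : I) (s : P) : Prop :=
  u ∈ X.inc s ∧ ((X.inc s ∩ T).erase v).card < X.k

lemma tau_insert_hit (T : Finset I) {u v : I} (huT : u ∉ T) (huv : v ≠ u) {s : P}
    (hh : hit X T u v s) : X.tau (insert u T) v s = X.tau T v s + 1 := by
  unfold Ctx.tau
  obtain ⟨h1, h2⟩ := hh
  have h3 : (X.inc s ∩ insert u T).erase v = insert u ((X.inc s ∩ T).erase v) := by
    ext i
    simp only [Finset.mem_erase, Finset.mem_inter, Finset.mem_insert]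
    constructor
    · rintro ⟨ha, hb, hc | hc⟩
      · exact Or.inl hc
      · exact Or.inr ⟨ha, hb, hc⟩
    · rintro (ha | ⟨ha, hb, hc⟩)
      · subst ha
        exact ⟨fun hh => huv hh.symm, h1, Or.inl rfl⟩
      · exact ⟨ha, hb, Or.inr hc⟩
  have h4 : u ∉ (X.inc s ∩ T).erase v := by
    simp only [Finset.mem_erase, Finset.mem_inter]
    tauto
  rw [h3, Finset.card_insert_of_notMem h4]
  omega

lemma tau_insert_not (T : Finset I) {u v : I} (huT : u ∉ T) {s : P}
    (hh : v = u ∨ ¬ hit X T u v s) : X.tau (insert u T) v s = X.tau T v s := by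
  unfold Ctx.tau
  by_cases h1 : u ∈ X.inc s
  · by_cases h2 : v = u
    · have h3 : (X.inc s ∩ insert u T).erase v = (X.inc s ∩ T).erase v := by
        subst h2
        ext i
        simp only [Finset.mem_erase, Finset.mem_inter, Finset.mem_insert]
        tauto
      rw [h3]
    · have h3 : X.k ≤ ((X.inc s ∩ T).erase v).card := by
        by_contra h4
        push Not at h4
        rcases hh with hh | hh
        · exact h2 hh
        · exact hh ⟨h1, h4⟩
      have h4 : ((X.inc s ∩ T).erase v).card ≤ ((X.inc s ∩ insert u T).erase v).card := by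
        apply Finset.card_le_card
        apply Finset.erase_subset_erase
        apply Finset.inter_subset_inter_left
        exact Finset.subset_insert _ _
      omega
  · have h3 : X.inc s ∩ insert u T = X.inc s ∩ T := by
      ext i
      simp only [Finset.mem_inter, Finset.mem_insert]
      constructor
      · rintro ⟨ha, hb | hb⟩
        · subst hb
          exact absurd ha h1
        · exact ⟨ha, hb⟩
      · rintro ⟨ha, hb⟩
        exact ⟨ha, Or.inr hb⟩
    rw [h3]

lemma wt_insert_hit (T : Finset I) (g : I → ℝ) {u v : I} (huT : u ∉ T) (huv : v ≠ u) {s : P}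
    (hh : hit X T u v s) : X.wt (insert u T) g v s = X.β * X.wt T g v s := by
  unfold Ctx.wt
  rw [tau_insert_hit T huT huv hh, pow_succ]
  ring

lemma wt_insert_not (T : Finset I) (g : I → ℝ) {u v : I} (huT : u ∉ T) {s : P}
    (hh : v = u ∨ ¬ hit X T u v s) : X.wt (insert u T) g v s = X.wt T g v s := by
  unfold Ctx.wt
  rw [tau_insert_not T huT hh]

/-- `x_v` -/
noncomputable def xx (X : Ctx P I) (T : Finset I) (g : I → ℝ) (u v : I) : ℝ :=
  ∑ s ∈ (X.seen v).filter (fun s => u ∈ X.inc s ∧ ((X.inc s ∩ T).erase v).card < X.k),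
      X.prob T g v s

lemma uload_eq (T : Finset I) (g : I → ℝ) (u : I) :
    X.uload T g u = ∑ v ∈ X.walkers.erase u, xx X T g u v := rfl

lemma xx_nonneg (h : X.Hyp J σ Y) (T : Finset I) (g : I → ℝ) (u v : I) : 0 ≤ xx X T g u v :=
  Finset.sum_nonneg (fun s _ => prob_nonneg h T g v s)

lemma uload_nonneg (h : X.Hyp J σ Y) (T : Finset I) (g : I → ℝ) (u : I) :
    0 ≤ X.uload T g u := by
  rw [uload_eq]
  exact Finset.sum_nonneg (fun v _ => xx_nonneg h T g u v)

/-- sums over the (at most one) live point common to `v` and `i` are at most `ε₀` -/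
lemma sum_common_le (h : X.Hyp J σ Y) (T : Finset I) {g : I → ℝ} (hg : ∀ i, 0 ≤ g i) {i v : I}
    (hv : v ∈ X.walkers) (hiv : v ≠ i) (F : Finset P) (hF : F ⊆ X.seen v)
    (hF' : ∀ s ∈ F, i ∈ X.inc s) :
    ∑ s ∈ F, X.prob T g v s ≤ 16 * X.β ^ X.k / X.r := by
  rcases F.eq_empty_or_nonempty with h0 | ⟨s0, hs0⟩
  · rw [h0, Finset.sum_empty]
    exact eps_nonneg h
  · have h1 : F = {s0} := by
      ext s
      simp only [Finset.mem_singleton]
      constructor
      · intro hs
        have hs1 := (Finset.mem_filter.mp (hF hs)).2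
        have hs2 := (Finset.mem_filter.mp (hF hs0)).2
        exact h.lin v i hiv (walker_V hv) s s0 hs1 (hF' s hs) hs2 (hF' s0 hs0)
      · rintro rfl
        exact hs0
    rw [h1, Finset.sum_singleton]
    exact prob_le h T hg hv s0

lemma xx_le (h : X.Hyp J σ Y) (T : Finset I) {g : I → ℝ} (hg : ∀ i, 0 ≤ g i) {u v : I}
    (hv : v ∈ X.walkers) (huv : v ≠ u) : xx X T g u v ≤ 16 * X.β ^ X.k / X.r := by
  unfold xx
  apply sum_common_le h T hg hv huv _ (Finset.filter_subset _ _)
  intro s hs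
  exact (Finset.mem_filter.mp hs).2.1

lemma Z_insert (h : X.Hyp J σ Y) (T : Finset I) (g : I → ℝ) {u v : I} (huT : u ∉ T)
    (huv : v ≠ u) :
    X.Z (insert u T) g v = X.Z T g v * (1 + (X.β - 1) * xx X T g u v) := by
  have hZ := Z_pos h T g v
  have h1 : X.Z T g v * xx X T g u v
      = ∑ s ∈ (X.seen v).filter (fun s => u ∈ X.inc s ∧ ((X.inc s ∩ T).erase v).card < X.k),
      X.wt T g v s := by
    unfold xx Ctx.prob
    rw [← Finset.sum_div]
    field_simp
  have h2 : X.Z (insert u T) g v = X.Z T g v + (X.β - 1) *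
      ∑ s ∈ (X.seen v).filter (fun s => u ∈ X.inc s ∧ ((X.inc s ∩ T).erase v).card < X.k),
      X.wt T g v s := by
    unfold Ctx.Z
    rw [Finset.sum_filter, Finset.mul_sum, add_assoc, ← Finset.sum_add_distrib]
    congr 1
    apply Finset.sum_congr rfl
    intro s _
    by_cases hh : u ∈ X.inc s ∧ ((X.inc s ∩ T).erase v).card < X.k
    · rw [if_pos hh, wt_insert_hit T g huT huv hh]
      ring
    · rw [if_neg hh, wt_insert_not T g huT (Or.inr hh)]
      ring
  rw [h2, ← h1]
  ring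

lemma Z_insert_self (T : Finset I) (g : I → ℝ) {u : I} (huT : u ∉ T) :
    X.Z (insert u T) g u = X.Z T g u := by
  unfold Ctx.Z
  congr 1
  apply Finset.sum_congr rfl
  intro s _
  exact wt_insert_not T g huT (Or.inl rfl)

end H63

end EpsNet
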